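import Mathlib
import Pool.Graph.R_pool_sql_team_seeded_efc1946e.K1H50.NP.Win

/-! Five ninths, uniformly in the map: compactness. -/

set_option autoImplicit false

namespace Pool.Agent.H74

open Finset Filter
open Pool.Agent.Y827.RO Pool.Agent.Y863.AU Pool.Agent.Y863.AA Pool.Agent.W25.IT
open Pool.Agent.H947R3.GM Pool.Agent.K1H50.NP

/-- the set of differences property -/
def Clique59 (n K : ℕ) (G : Set ℕ) : Prop :=
  ∀ H : Fin n → Fin K → ℕ, Function.Injective (fun x : Fin n × Fin K => H x.1 x.2) →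
    (∀ g i, (n * K).factorial ∣ H g i) →
      ∃ (F : Finset (Fin n)) (c : Fin n → Fin K), (5 / 18 : ℝ) * n ≤ F.card ∧
        ∀ g ∈ F, ∀ g' ∈ F, H g (c g) < H g' (c g') → H g' (c g') - H g (c g) ∈ G

/-- ultrafilter pigeonhole for a finite type -/
theorem ultra_pigeon {α : Type*} [Finite α] (U : Ultrafilter ℕ) (f : ℕ → α) :
    ∃ a, ∀ᶠ i in (U : Filter ℕ), f i = a := by
  classical
  by_contra hcon
  have h1 : ∀ a, ∀ᶠ i in (U : Filter ℕ), f i ≠ a := by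
    intro a
    exact (Ultrafilter.eventually_not (f := U)).2 fun h => hcon ⟨a, h⟩
  have h2 : ∀ᶠ i in (U : Filter ℕ), ∀ a, f i ≠ a := Filter.eventually_all.2 h1
  obtain ⟨i, hi⟩ := h2.exists
  exact hi (f i) rfl

/-- bounded sequences -/
theorem ultra_bdd (U : Ultrafilter ℕ) (b : ℕ) (f : ℕ → ℕ) (hf : ∀ᶠ i in (U : Filter ℕ), f i ≤ b) :
    ∃ a, ∀ᶠ i in (U : Filter ℕ), f i = a := by
  obtain ⟨a, ha⟩ := ultra_pigeon U (fun i => (⟨min (f i) b, by omega⟩ : Fin (b + 1)))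
  refine ⟨a, ?_⟩
  filter_upwards [ha, hf] with i h1 h2
  rw [← h1]
  simp only
  omega

/-- the ultraproduct -/
def ult (U : Ultrafilter ℕ) (G : ℕ → Set ℕ) : Set ℕ := {k | ∀ᶠ i in (U : Filter ℕ), k ∈ G i}

theorem mem_ult_iff (U : Ultrafilter ℕ) (G : ℕ → Set ℕ) (k : ℕ) :
    ∀ᶠ i in (U : Filter ℕ), (k ∈ G i ↔ k ∈ ult U G) := by
  by_cases hk : k ∈ ult U G
  · filter_upwards [hk] with i hi
    exact ⟨fun _ => hk, fun _ => hi⟩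
  · have h1 : ∀ᶠ i in (U : Filter ℕ), k ∉ G i := (Ultrafilter.eventually_not).2 hk
    filter_upwards [h1] with i hi
    exact ⟨fun h => absurd h hi, fun h => absurd h hk⟩

theorem clique_ult {n K : ℕ} (U : Ultrafilter ℕ) (G : ℕ → Set ℕ)
    (hG : ∀ᶠ i in (U : Filter ℕ), Clique59 n K (G i)) : Clique59 n K (ult U G) := by
  classical
  intro H hinj hdv
  have h1 : ∀ i, ∃ z : Finset (Fin n) × (Fin n → Fin K), Clique59 n K (G i) →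
      ((5 / 18 : ℝ) * n ≤ z.1.card ∧
        ∀ g ∈ z.1, ∀ g' ∈ z.1, H g (z.2 g) < H g' (z.2 g') → H g' (z.2 g') - H g (z.2 g) ∈ G i) := by
    intro i
    by_cases h : Clique59 n K (G i)
    · obtain ⟨F, c, h2⟩ := h H hinj hdv
      exact ⟨(F, c), fun _ => h2⟩
    · by_cases hne : Nonempty (Fin n → Fin K)
      · exact ⟨(∅, Classical.choice hne), fun h' => absurd h' h⟩
      · obtain ⟨j, hj⟩ := hG.exists
        obtain ⟨F, c, h2⟩ := hj H hinj hdv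
        exact ⟨(F, c), fun h' => absurd h' h⟩
  choose z hz using h1
  obtain ⟨w, hw⟩ := ultra_pigeon U z
  obtain ⟨i, hi, hGi⟩ := (hw.and hG).exists
  refine ⟨w.1, w.2, ?_, ?_⟩
  · rw [← hi]
    exact (hz i hGi).1
  · intro g hg g' hg' hlt
    show ∀ᶠ i in (U : Filter ℕ), _
    filter_upwards [hw, hG] with j hj hGj
    rw [← hj] at hg hg' hlt ⊢
    exact (hz j hGj).2 g hg g' hg' hlt

/-- **uniformity** -/
theorem unif {n K : ℕ} {κ : ℝ} (Hm : ∀ G : Set ℕ, Clique59 n K G →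
    ∃ M : ℕ, 0 < M ∧ ∀ N : ℕ, 0 < N → M ∣ N → ∃ L : ℕ, ∀ T : ℕ, L ≤ T → ∀ u : ℕ,
      κ * T ≤ ({k : ℕ | u < k ∧ k ≤ u + T ∧ N * k ∈ G}.ncard : ℝ)) (Φ : ℕ → ℕ) :
    ∃ N₀ : ℕ, ∀ G : Set ℕ, Clique59 n K G →
    ∃ M : ℕ, 0 < M ∧ M ≤ N₀ ∧ ∀ N : ℕ, 0 < N → N ≤ Φ M → M ∣ N → ∃ L : ℕ, L ≤ N₀ ∧
      ∀ T : ℕ, L ≤ T → T ≤ Φ L → ∀ u : ℕ, u ≤ Φ L →
      κ * T ≤ ({k : ℕ | u < k ∧ k ≤ u + T ∧ N * k ∈ G}.ncard : ℝ) := by
  classical
  by_contra hcon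
  push Not at hcon
  choose G hG hbad using hcon
  obtain ⟨U, hU⟩ : ∃ U : Ultrafilter ℕ, U = hyperfilter ℕ := ⟨_, rfl⟩
  have hUat : ∀ b : ℕ, ∀ᶠ R in (U : Filter ℕ), b ≤ R := by
    intro b
    rw [hU]
    exact Nat.hyperfilter_le_atTop (eventually_ge_atTop b)
  have hGU : Clique59 n K (ult U G) := clique_ult U G (Eventually.of_forall hG)
  obtain ⟨M, hM0, hM⟩ := Hm _ hGU
  -- the multiple
  have h1 : ∀ i, ∃ N : ℕ, M ≤ i → (0 < N ∧ N ≤ Φ M ∧ M ∣ N ∧ ∀ L ≤ i, ∃ T, L ≤ T ∧ T ≤ Φ L ∧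
      ∃ u ≤ Φ L, ({k : ℕ | u < k ∧ k ≤ u + T ∧ N * k ∈ G i}.ncard : ℝ) < κ * T) := by
    intro i
    by_cases hi : M ≤ i
    · obtain ⟨N, hN⟩ := hbad i M hM0 hi
      exact ⟨N, fun _ => hN⟩
    · exact ⟨0, fun h => absurd h hi⟩
  choose Nf hNf using h1
  obtain ⟨N, hN⟩ := ultra_bdd U (Φ M) Nf (by
    filter_upwards [hUat M] with i hi using (hNf i hi).2.1)
  obtain ⟨i₀, hi₀, hi₀'⟩ := (hN.and (hUat M)).exists
  have hNpos : 0 < N := by rw [← hi₀]; exact (hNf i₀ hi₀').1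
  have hMN : M ∣ N := by rw [← hi₀]; exact (hNf i₀ hi₀').2.2.1
  obtain ⟨L, hL⟩ := hM N hNpos hMN
  have h2 : ∀ i, ∃ w : ℕ × ℕ, (M ≤ i ∧ L ≤ i) → (L ≤ w.1 ∧ w.1 ≤ Φ L ∧ w.2 ≤ Φ L ∧
      ({k : ℕ | w.2 < k ∧ k ≤ w.2 + w.1 ∧ Nf i * k ∈ G i}.ncard : ℝ) < κ * w.1) := by
    intro i
    by_cases hi : M ≤ i ∧ L ≤ i
    · obtain ⟨T, hT1, hT2, u, hu, hlt⟩ := (hNf i hi.1).2.2.2 L hi.2
      exact ⟨(T, u), fun _ => ⟨hT1, hT2, hu, hlt⟩⟩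
    · exact ⟨(0, 0), fun h => absurd h hi⟩
  choose w hw using h2
  obtain ⟨T, hT⟩ := ultra_bdd U (Φ L) (fun i => (w i).1) (by
    filter_upwards [hUat M, hUat L] with i h3 h4 using (hw i ⟨h3, h4⟩).2.1)
  obtain ⟨u, hu⟩ := ultra_bdd U (Φ L) (fun i => (w i).2) (by
    filter_upwards [hUat M, hUat L] with i h3 h4 using (hw i ⟨h3, h4⟩).2.2.1)
  have h5 : ∀ᶠ i in (U : Filter ℕ), ∀ k ∈ Ioc u (u + T), (N * k ∈ G i ↔ N * k ∈ ult U G) := by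
    rw [Filter.eventually_all_finset]
    exact fun k _ => mem_ult_iff U G (N * k)
  obtain ⟨i, h6⟩ := (hT.and (hu.and (h5.and (hN.and ((hUat M).and (hUat L)))))).exists
  obtain ⟨hTi, hui, h7, hNi, hMi, hLi⟩ := h6
  have h8 := hw i ⟨hMi, hLi⟩
  rw [hTi, hui, hNi] at h8
  have h9 := hL T h8.1 u
  have h10 : {k : ℕ | u < k ∧ k ≤ u + T ∧ N * k ∈ G i} = {k : ℕ | u < k ∧ k ≤ u + T ∧ N * k ∈ ult U G} := by
    ext k
    constructor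
    · rintro ⟨ha, hb, hc⟩
      exact ⟨ha, hb, (h7 k (mem_Ioc.2 ⟨ha, hb⟩)).1 hc⟩
    · rintro ⟨ha, hb, hc⟩
      exact ⟨ha, hb, (h7 k (mem_Ioc.2 ⟨ha, hb⟩)).2 hc⟩
  rw [h10] at h8
  linarith [h8.2.2.2]

open Classical in
/-- absolute constants for the good exponents of all maps -/
theorem hits59 (n : ℕ) (hn1 : 1 ≤ n) : ∃ K : ℕ, 1 ≤ K ∧ ∀ f : Af, 1 ≤ f.d → f.Adm → f ≠ 1 →
    Clique59 n K {k : ℕ | GdI (n * K) f k} := by
  obtain ⟨M', hM'⟩ : ∃ M', M' = ⌈(5 / 18 : ℝ) * n⌉₊ - 1 := ⟨_, rfl⟩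
  have hn1' : (1 : ℝ) ≤ n := by exact_mod_cast hn1
  have hβn : 0 < (5 / 18 : ℝ) * n := by positivity
  have hceil : 0 < ⌈(5 / 18 : ℝ) * n⌉₊ := Nat.ceil_pos.2 hβn
  have hM'1 : M' + 1 = ⌈(5 / 18 : ℝ) * n⌉₊ := by omega
  have hM'lt : (M' : ℝ) < (5 / 18 : ℝ) * n := by
    have h := Nat.ceil_lt_add_one hβn.le
    have h2 : ((M' + 1 : ℕ) : ℝ) = (⌈(5 / 18 : ℝ) * n⌉₊ : ℝ) := by rw [hM'1]
    push_cast at h2
    linarith
  obtain ⟨K, hK, hclq⟩ := clq n M' hn1 (by linarith)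
  refine ⟨K, hK, fun f hfd hfA hf1 H hinj hdv => ?_⟩
  have hfa : f.a ≠ 0 := Af.a_ne hfA hf1 hfd
  -- a common number of iterates
  have hR : ∀ z : (Fin n × Fin K) × (Fin n × Fin K), ∃ R : ℕ,
      ¬ GdI (n * K) f (H z.2.1 z.2.2 - H z.1.1 z.1.2) → H z.2.1 z.2.2 - H z.1.1 z.1.2 ≤ R ∧
      ¬ GdR (n * K) R f (H z.2.1 z.2.2 - H z.1.1 z.1.2) := by
    intro z
    by_cases hz : GdI (n * K) f (H z.2.1 z.2.2 - H z.1.1 z.1.2)
    · exact ⟨0, fun h => absurd hz h⟩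
    · have h1 : ¬ ∀ R, H z.2.1 z.2.2 - H z.1.1 z.1.2 ≤ R →
          GdR (n * K) R f (H z.2.1 z.2.2 - H z.1.1 z.1.2) := fun h => hz (gdI_of h)
      push Not at h1
      obtain ⟨R, hR1, hR2⟩ := h1
      exact ⟨R, fun _ => ⟨hR1, hR2⟩⟩
  choose Rf hRf using hR
  obtain ⟨R, hRdef⟩ : ∃ R : ℕ, R = ∑ z : (Fin n × Fin K) × (Fin n × Fin K),
    (Rf z + (H z.2.1 z.2.2 - H z.1.1 z.1.2)) := ⟨_, rfl⟩
  have hRz : ∀ z : (Fin n × Fin K) × (Fin n × Fin K),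
      Rf z + (H z.2.1 z.2.2 - H z.1.1 z.1.2) ≤ R := by
    intro z
    rw [hRdef]
    exact single_le_sum (f := fun z : (Fin n × Fin K) × (Fin n × Fin K) =>
      (Rf z + (H z.2.1 z.2.2 - H z.1.1 z.1.2))) (fun _ _ => Nat.zero_le _) (mem_univ z)
  obtain ⟨S, σ, hS, hcl⟩ := hclq R (fun γ i => f ^ H γ i) (fun γ i => by
      rw [Af.pow_d]
      have h2 : 0 < f.d ^ H γ i := by
        have : 0 < f.d := by omega
        positivity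
      omega) (by
      intro x y hxy
      apply hinj
      have h1 : f ^ H x.1 x.2 = f ^ H y.1 y.2 := hxy
      have h2 := congrArg Af.d h1
      have h3 := congrArg Af.a h1
      rw [Af.pow_d, Af.pow_d] at h2
      rw [Af.pow_a, Af.pow_a] at h3
      exact itc_inj hfd hfa h2 h3)
    (fun p hp => loc_pow hfA H hdv hp) {f} (fun h hh => by
      rw [mem_singleton] at hh
      rw [hh]
      exact ⟨hfd, hfa⟩)
  refine ⟨S, σ, ?_, fun γ hγ δ hδ hlt => ?_⟩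
  · refine (Nat.le_ceil _).trans ?_
    rw [← hM'1]
    exact_mod_cast hS
  · have h1 := hcl γ hγ δ hδ f (mem_singleton_self _) (H δ (σ δ) - H γ (σ γ)) (by omega) (by
      have := hRz ((γ, σ γ), (δ, σ δ))
      simp only at this
      omega) (by
      rw [← pow_add]
      congr 1
      omega)
    show GdI (n * K) f (H δ (σ δ) - H γ (σ γ))
    by_contra hng
    obtain ⟨h2, h3⟩ := hRf ((γ, σ γ), (δ, σ δ)) hng
    have h4 := hRz ((γ, σ γ), (δ, σ δ))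
    simp only at h2 h3 h4
    exact h3 (h1.mono h2 (by omega))

end Pool.Agent.H74
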