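import Mathlib
import Pool.Graph.R_pool_sql_team_seeded_efc1946e.K1H50.NP.Win

/-! Good iterates of `x ↦ a + d x` (the definitions of `FiveNinthsOfIterates` of the starting files). -/

set_option autoImplicit false

namespace Pool.Agent.H74

open Finset Filter

/-- the value at `q` of the `j`-th iterate of `x ↦ a + d x` is a prime -/
def PrimeAt (a d : ℤ) (q j : ℕ) : Prop :=
  ∃ p : ℕ, p.Prime ∧ a * ∑ i ∈ range j, d ^ i + q * d ^ j = p

/-- `q` is a prime, and for `1 ≤ j ≤ R` the `j`-th iterate maps `q` to a prime if and only if `j ∈ E` -/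
def Pattern (a d : ℤ) (E : Finset ℕ) (R q : ℕ) : Prop :=
  q.Prime ∧ ∀ j ∈ Icc 1 R, PrimeAt a d q j ↔ j ∈ E

/-- Many narrow progressions of every length `l`: for some `C` and arbitrarily large `X` there is a common
difference `D ≤ (log X)^C` such that for at least `X / (log X)^C` of the positive integers `n ≤ X` the
numbers `n, n + D, ..., n + (l - 1) D` have the property `P`. -/
def Narrow (P : ℕ → Prop) : Prop :=
  ∀ l : ℕ, ∃ C : ℕ, ∃ᶠ X : ℕ in atTop, ∃ D : ℕ, 1 ≤ D ∧ (D : ℝ) ≤ Real.log X ^ C ∧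
    (X : ℝ) / Real.log X ^ C ≤ ({n : ℕ | 1 ≤ n ∧ n ≤ X ∧ ∀ i < l, P (n + i * D)}.ncard : ℝ)

/-- The pair of the `j`-th iterate satisfies the hypotheses of the question, and there is a set `E` of at
most `J` positive exponents, `j ∈ E`, such that for every `R` the primes `q` for which among the first `R`
iterates exactly those with the exponents in `E` are prime contain many narrow progressions of every
length. -/
def Good (J : ℕ) (a d : ℤ) (j : ℕ) : Prop :=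
  Int.gcd (a * ∑ i ∈ range j, d ^ i) (d ^ j) = 1 ∧ 2 ∣ (a * ∑ i ∈ range j, d ^ i) * d ^ j ∧
    ∃ E : Finset ℕ, 0 ∉ E ∧ E.card ≤ J ∧ j ∈ E ∧ ∀ R : ℕ, Narrow (Pattern a d E R)

theorem prime_iff (x : ℤ) : (∃ p : ℕ, p.Prime ∧ x = p) ↔ x.toNat.Prime := by
  constructor
  · rintro ⟨p, hp, rfl⟩
    rwa [Int.toNat_natCast]
  · intro h
    refine ⟨x.toNat, h, ?_⟩
    by_contra hne
    have h1 : x.toNat = 0 := by
      rw [Int.toNat_eq_zero]
      by_contra h2
      exact hne (Int.toNat_of_nonneg (by omega)).symm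
    rw [h1] at h
    exact Nat.not_prime_zero h

open Pool.Agent.Y863.AU in
theorem pattern_of {a d : ℤ} {E : Finset ℕ} {R q : ℕ}
    (h : Pool.Agent.K1H50.NP.Pt (⟨a, d⟩ : Af) E R q) : Pattern a d E R q := by
  refine ⟨h.1, fun j hj => ?_⟩
  rw [← h.2 j hj]
  unfold PrimeAt
  rw [prime_iff]
  have e : a * ∑ i ∈ range j, d ^ i + q * d ^ j = ((⟨a, d⟩ : Af) ^ j).ev q := by
    unfold Af.ev
    rw [Af.pow_a, Af.pow_d]
    unfold Pool.Agent.W25.IT.itc
    ring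
  rw [e]

theorem narrow_of {X : ℕ → Prop} (h : Pool.Agent.Y827.RO.Nar X) : Narrow X := by
  classical
  intro l
  obtain ⟨C, hC⟩ := h l
  refine ⟨C, hC.mono ?_⟩
  rintro N ⟨D, h1, h2, h3⟩
  refine ⟨D, h1, h2, h3.trans ?_⟩
  rw [Nat.cast_le, ← Set.ncard_coe_finset]
  refine Set.ncard_le_ncard ?_ ((Set.finite_le_nat N).subset fun n hn => hn.2.1)
  intro n hn
  rw [mem_coe, mem_filter, mem_Icc] at hn
  exact ⟨hn.1.1, hn.1.2, hn.2⟩

theorem adm_pow {h : Pool.Agent.Y863.AU.Af} (hA : h.Adm) (j : ℕ) : (h ^ j).Adm := by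
  cases j with
  | zero => rw [pow_zero]; exact Pool.Agent.Y863.AU.Af.Adm_one
  | succ j =>
    rw [pow_succ]
    exact Pool.Agent.Y863.AU.Af.adm_pow_mul hA hA rfl j

open Pool.Agent.Y863.AU in
theorem good_of {J : ℕ} {a d : ℤ} (hA : (⟨a, d⟩ : Af).Adm) {j : ℕ}
    (h : Pool.Agent.K1H50.NP.GdI J (⟨a, d⟩ : Af) j) : Good J a d j := by
  obtain ⟨E, hE0, hEJ, hEj, hER⟩ := h
  have h3 : ((⟨a, d⟩ : Af) ^ j).Adm := adm_pow hA _
  have h4 : Int.gcd ((⟨a, d⟩ : Af) ^ j).a ((⟨a, d⟩ : Af) ^ j).d = 1 := h3.1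
  have h5 : 2 ∣ ((⟨a, d⟩ : Af) ^ j).a * ((⟨a, d⟩ : Af) ^ j).d := h3.2
  rw [Af.pow_a, Af.pow_d] at h4 h5
  exact ⟨h4, h5, E, hE0, hEJ, hEj, fun R => narrow_of ((hER R).mono fun q hq => pattern_of hq)⟩

end Pool.Agent.H74
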