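import Mathlib
import Pool.Graph.R_seed8.R493.SC.Pairs

/-! The density of a relation which meets all systems of `r` classes of `K` elements
(after `Pool.Agent.R493.SI.densR`, `Pool.Agent.R493.SC.pairsSC`). -/

set_option autoImplicit false

namespace Pool.Agent.H74

open Finset Filter
open Pool.Agent.R493.OT (prs card_prs sum_pi_pair)
open Pool.Agent.R493.SI (turan_r)
open Pool.Agent.R493.SC (blk blk_sub blk_card blk_lt)

/-- every system of `r` of the classes contains a related pair of elements of different classes -/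
def Meets (r K : ℕ) {m : ℕ} {α : Type} (Rel : α → α → Prop) (V : Fin m → Finset α) : Prop :=
  ∀ t : Finset (Fin m), t.card = r → ∀ A : Fin m → Fin K → α,
      (∀ i, Function.Injective (A i)) → (∀ i k, A i k ∈ V i) →
      ∃ i ∈ t, ∃ j ∈ t, i < j ∧ ∃ k k', Rel (A i k) (A j k')

open Classical in
/-- almost all transversals have many related pairs -/
theorem rareM (r m K : ℕ) (hr : 2 ≤ r) {δ : ℝ} (hδ : 0 < δ) :
    ∃ N : ℕ, ∀ (α : Type) (Rel : α → α → Prop) (V : Fin m → Finset α), (∀ i, N ≤ (V i).card) →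
    Meets r K Rel V →
    ((((Fintype.piFinset V).filter (fun x =>
      (((prs m).filter (fun p => Rel (x p.1) (x p.2))).card : ℝ) <
        ((m : ℝ) ^ 2 / ((r : ℝ) - 1) - m) / 2)).card : ℕ) : ℝ) ≤
      δ * ∏ i, ((V i).card : ℝ) := by
  obtain ⟨N, hN⟩ := Pool.Agent.H362R2.CM.box_lemma m (K + 1) (δ / (2 ^ m + 1)) (by positivity)
  refine ⟨N, fun α Rel V hV h4 => ?_⟩
  by_contra hcon
  push Not at hcon
  set Bad := (Fintype.piFinset V).filter (fun x =>
      (((prs m).filter (fun p => Rel (x p.1) (x p.2))).card : ℝ) <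
        ((m : ℝ) ^ 2 / ((r : ℝ) - 1) - m) / 2) with hBad
  set D : Finset (Finset (Fin m)) := (univ : Finset (Finset (Fin m))).filter (fun t => t.card = r) with hD
  have h1 : Bad ⊆ D.biUnion
      (fun t => (Fintype.piFinset V).filter (fun x =>
        ∀ i ∈ t, ∀ j ∈ t, i < j → ¬ Rel (x i) (x j))) := by
    intro x hx
    obtain ⟨hx1, hx2⟩ := mem_filter.1 hx
    by_contra hno
    apply absurd (turan_r hr (fun i j => Rel (x i) (x j)) (fun I hI => ?_)) (not_le.2 hx2)
    by_contra hno2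
    push Not at hno2
    apply hno
    exact mem_biUnion.2 ⟨I, mem_filter.2 ⟨mem_univ _, hI⟩, mem_filter.2 ⟨hx1, hno2⟩⟩
  have h2 : ∃ t ∈ D, δ / (2 ^ m + 1) * ∏ i, ((V i).card : ℝ) ≤
      ((Fintype.piFinset V).filter (fun x => ∀ i ∈ t, ∀ j ∈ t, i < j → ¬ Rel (x i) (x j))).card := by
    by_contra hno
    push Not at hno
    have h3 : ((Bad.card : ℕ) : ℝ) ≤ ∑ t ∈ D,
        (((Fintype.piFinset V).filter (fun x =>
        ∀ i ∈ t, ∀ j ∈ t, i < j → ¬ Rel (x i) (x j))).card : ℝ) := by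
      exact_mod_cast (card_le_card h1).trans card_biUnion_le
    have h4 : ∑ t ∈ D,
        (((Fintype.piFinset V).filter (fun x =>
        ∀ i ∈ t, ∀ j ∈ t, i < j → ¬ Rel (x i) (x j))).card : ℝ) ≤
        ∑ t ∈ D, δ / (2 ^ m + 1) * ∏ i, ((V i).card : ℝ) :=
      Finset.sum_le_sum (fun t ht => (hno t ht).le)
    rw [Finset.sum_const, nsmul_eq_mul] at h4
    have h5 : (D.card : ℝ) ≤ 2 ^ m := by
      have : D.card ≤ 2 ^ m := by
        refine (card_le_univ _).trans ?_
        rw [Fintype.card_finset, Fintype.card_fin]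
      exact_mod_cast this
    have h6 : (0 : ℝ) ≤ ∏ i, ((V i).card : ℝ) := Finset.prod_nonneg (fun i _ => Nat.cast_nonneg _)
    have h7 : (D.card : ℝ) *
        (δ / (2 ^ m + 1) * ∏ i, ((V i).card : ℝ)) ≤ δ * ∏ i, ((V i).card : ℝ) := by
      have h8 : (D.card : ℝ) * (δ / (2 ^ m + 1)) ≤ δ := by
        rw [mul_div_assoc', div_le_iff₀ (by positivity)]
        nlinarith
      calc _ = ((D.card : ℝ) * (δ / (2 ^ m + 1))) * ∏ i, ((V i).card : ℝ) := by ring
        _ ≤ _ := mul_le_mul_of_nonneg_right h8 h6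
    linarith
  obtain ⟨t, ht, hcard⟩ := h2
  obtain ⟨A, hA1, hA2⟩ := hN α V hV _ (filter_subset _ _) hcard
  have hmem : ∀ i k, A i k ∈ V i := by
    intro i k
    have := (mem_filter.1 (hA2 (fun _ => k))).1
    rw [Fintype.mem_piFinset] at this
    exact this i
  obtain ⟨i, hi, j, hj, hij, k, k', hR⟩ := h4 t (mem_filter.1 ht).2 (fun i k => A i (Fin.castSucc k))
    (fun i a b hab => Fin.castSucc_injective _ (hA1 i hab)) (fun i k => hmem i _)
  have h9 := (mem_filter.1 (hA2 (fun l => if l = i then Fin.castSucc k else Fin.castSucc k'))).2 i hi j hj hij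
  simp only [if_pos, if_neg hij.ne'] at h9
  exact h9 hR

open Classical in
/-- the densities of the relation between the pairs of classes -/
theorem densM (r m K : ℕ) (hr : 2 ≤ r) : ∃ N : ℕ, 1 ≤ N ∧ ∀ (α : Type)
    (Rel : α → α → Prop) (V : Fin m → Finset α), (∀ i, N ≤ (V i).card) → Meets r K Rel V →
    ((m : ℝ) ^ 2 / ((r : ℝ) - 1) - m) / 2 - 1 ≤ ∑ p ∈ prs m,
      ((∑ a ∈ V p.1, ∑ b ∈ V p.2, (if Rel a b then (1 : ℝ) else 0)) /
        (((V p.1).card : ℝ) * ((V p.2).card : ℝ))) := by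
  set c : ℝ := ((m : ℝ) ^ 2 / ((r : ℝ) - 1) - m) / 2 with hc
  obtain ⟨N, hN⟩ := rareM r m K hr (δ := 1 / (|c| + 1)) (by positivity)
  refine ⟨max 1 N, le_max_left _ _, fun α Rel V hV h4 => ?_⟩
  have hrr := hN α Rel V (fun i => (le_max_right _ _).trans (hV i)) h4
  have hV0 : ∀ i, (0 : ℝ) < (V i).card := fun i => by
    exact_mod_cast (lt_of_lt_of_le one_pos ((le_max_left _ _).trans (hV i)))
  have hP : (0 : ℝ) < ∏ i, ((V i).card : ℝ) := Finset.prod_pos (fun i _ => hV0 i)
  set P := ∏ i, ((V i).card : ℝ) with hPdef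
  have h1 : P * ∑ p ∈ prs m,
      ((∑ a ∈ V p.1, ∑ b ∈ V p.2, (if Rel a b then (1 : ℝ) else 0)) /
        (((V p.1).card : ℝ) * ((V p.2).card : ℝ))) =
      ∑ x ∈ Fintype.piFinset V,
        (((prs m).filter (fun p => Rel (x p.1) (x p.2))).card : ℝ) := by
    have e1 : ∀ x ∈ Fintype.piFinset V,
        (((prs m).filter (fun p => Rel (x p.1) (x p.2))).card : ℝ) =
        ∑ p ∈ prs m, (if Rel (x p.1) (x p.2) then (1 : ℝ) else 0) := by
      intro x _
      rw [Finset.card_filter]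
      push_cast
      rfl
    rw [Finset.sum_congr rfl e1, Finset.sum_comm, Finset.mul_sum]
    apply Finset.sum_congr rfl
    intro p hp
    have hlt : p.1 < p.2 := (mem_filter.1 hp).2
    have e2 := sum_pi_pair V hlt.ne (fun a b => if Rel a b then (1 : ℝ) else 0)
    have h0 : ((V p.1).card : ℝ) * ((V p.2).card : ℝ) ≠ 0 := (mul_pos (hV0 _) (hV0 _)).ne'
    rw [mul_div_assoc', div_eq_iff h0]
    rw [mul_comm (∑ x ∈ Fintype.piFinset V, _)]
    exact e2.symm
  have h2 : (c - 1) * P ≤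
      ∑ x ∈ Fintype.piFinset V,
        (((prs m).filter (fun p => Rel (x p.1) (x p.2))).card : ℝ) := by
    rcases le_or_gt c 0 with hc0 | hc0
    · have h3 : (0 : ℝ) ≤ ∑ x ∈ Fintype.piFinset V,
        (((prs m).filter (fun p => Rel (x p.1) (x p.2))).card : ℝ) :=
        Finset.sum_nonneg (fun _ _ => Nat.cast_nonneg _)
      nlinarith
    have h3 : ∑ x ∈ (Fintype.piFinset V).filter (fun x =>
        ¬ (((prs m).filter (fun p => Rel (x p.1) (x p.2))).card : ℝ) < c), c ≤
        ∑ x ∈ Fintype.piFinset V,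
          (((prs m).filter (fun p => Rel (x p.1) (x p.2))).card : ℝ) := by
      refine (Finset.sum_le_sum (fun x hx => ?_)).trans
        (Finset.sum_le_sum_of_subset_of_nonneg (filter_subset _ _) (fun _ _ _ => Nat.cast_nonneg _))
      exact not_lt.1 (mem_filter.1 hx).2
    rw [Finset.sum_const, nsmul_eq_mul] at h3
    have h4' := Finset.card_filter_add_card_filter_not (s := Fintype.piFinset V) (fun x =>
        (((prs m).filter (fun p => Rel (x p.1) (x p.2))).card : ℝ) < c)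
    rw [Fintype.card_piFinset] at h4'
    have h5 : ((((Fintype.piFinset V).filter (fun x =>
        (((prs m).filter (fun p => Rel (x p.1) (x p.2))).card : ℝ) < c)).card : ℕ) : ℝ) +
        ((((Fintype.piFinset V).filter (fun x =>
        ¬ (((prs m).filter (fun p => Rel (x p.1) (x p.2))).card : ℝ) < c)).card : ℕ) : ℝ) = P := by
      rw [hPdef]
      exact_mod_cast h4'
    have h6 : (1 / (|c| + 1)) * c ≤ 1 := by
      rw [div_mul_eq_mul_div, div_le_iff₀ (by positivity)]
      have := le_abs_self c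
      linarith
    have h7 : (P - 1 / (|c| + 1) * P) * c ≤
        ((((Fintype.piFinset V).filter (fun x =>
        ¬ (((prs m).filter (fun p => Rel (x p.1) (x p.2))).card : ℝ) < c)).card : ℕ) : ℝ) * c := by
      apply mul_le_mul_of_nonneg_right _ hc0.le
      linarith
    have h8 : (c - 1) * P ≤ (P - 1 / (|c| + 1) * P) * c := by
      have : (1 / (|c| + 1)) * c * P ≤ 1 * P := mul_le_mul_of_nonneg_right h6 hP.le
      nlinarith
    linarith
  have h9 : (c - 1) * P ≤ P * ∑ p ∈ prs m,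
      ((∑ a ∈ V p.1, ∑ b ∈ V p.2, (if Rel a b then (1 : ℝ) else 0)) /
        (((V p.1).card : ℝ) * ((V p.2).card : ℝ))) := by rw [h1]; exact h2
  rw [mul_comm P] at h9
  exact le_of_mul_le_mul_right h9 hP

open Classical in
/-- the number of related pairs of elements of a large set of natural numbers, if the relation meets
all systems of `r` classes of `K` elements -/
theorem pairsM (r K : ℕ) (hr : 2 ≤ r) (ε : ℝ) (hε : 0 < ε) : ∃ n₀ : ℕ,
    ∀ (Rel : ℕ → ℕ → Prop) (V : Finset ℕ), n₀ ≤ V.card →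
    (∀ A : Fin r → Fin K → ℕ, Function.Injective (fun z : Fin r × Fin K => A z.1 z.2) →
      (∀ g i, A g i ∈ V) → (∀ g g' i i', g < g' → A g i < A g' i') →
      ∃ g g' i i', g < g' ∧ Rel (A g i) (A g' i')) →
    (1 / ((r : ℝ) - 1) - ε) * (V.card : ℝ) ^ 2 / 2 ≤
      (((V ×ˢ V).filter (fun y => y.1 < y.2 ∧ Rel y.1 y.2)).card : ℝ) := by
  obtain ⟨m, hm⟩ := exists_nat_gt (4 / ε + 4)
  have hm4 : (4 : ℝ) < m := by
    have : 0 < 4 / ε := by positivity
    linarith
  have hm0 : 0 < m := by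
    have : (0 : ℝ) < m := by linarith
    exact_mod_cast this
  obtain ⟨Nd, hNd1, hNd⟩ := densM r m K hr
  obtain ⟨n₁, hn₁⟩ := exists_nat_gt (8 * m / ε)
  refine ⟨max (m * Nd) n₁, fun Rel V hV hmeet => ?_⟩
  have hV1 : m * Nd ≤ V.card := (le_max_left _ _).trans hV
  have hV2 : (8 * m / ε : ℝ) < V.card := hn₁.trans_le (by exact_mod_cast (le_max_right _ _).trans hV)
  set b : ℕ := V.card / m with hb
  have hmb : m * b ≤ V.card := Nat.mul_div_le _ _
  have hbN : Nd ≤ b := by
    rw [hb, Nat.le_div_iff_mul_le hm0, mul_comm]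
    exact hV1
  have hbc : ∀ i : Fin m, (blk V b i).card = b := fun i => blk_card V hmb i.2
  have hmain := hNd ℕ Rel (fun i : Fin m => blk V b i)
    (fun i => by rw [hbc]; exact hbN) (by
      intro t ht A' hA' hmem
      set e := t.orderEmbOfFin ht with he
      have hemem : ∀ g, e g ∈ t := fun g => t.orderEmbOfFin_mem ht g
      have hlt : ∀ g g' i i', g < g' → A' (e g) i < A' (e g') i' := by
        intro g g' i i' hg
        exact blk_lt V (e.strictMono hg) (hmem _ _) (hmem _ _)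
      obtain ⟨g, g', i, i', hg, hR⟩ := hmeet (fun g i => A' (e g) i) (by
          intro x y hxy
          rcases lt_trichotomy x.1 y.1 with h4 | h4 | h4
          · exact absurd hxy (hlt _ _ _ _ h4).ne
          · have hxy' : A' (e x.1) x.2 = A' (e y.1) y.2 := hxy
            rw [h4] at hxy'
            exact Prod.ext h4 (hA' _ hxy')
          · exact absurd hxy (hlt _ _ _ _ h4).ne') (fun g i => blk_sub V b _ (hmem _ _)) hlt
      exact ⟨e g, hemem g, e g', hemem g', e.strictMono hg, i, i', hR⟩)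
  set G := (V ×ˢ V).filter (fun y => y.1 < y.2 ∧ Rel y.1 y.2) with hG
  -- the pairs of different blocks
  have hsum : ∑ p ∈ prs m, (∑ u ∈ blk V b p.1, ∑ v ∈ blk V b p.2,
      (if Rel u v then (1 : ℝ) else 0)) ≤ (G.card : ℝ) := by
    have e1 : ∀ p ∈ prs m, (∑ u ∈ blk V b p.1, ∑ v ∈ blk V b p.2,
      (if Rel u v then (1 : ℝ) else 0)) =
      ((G.filter (fun y => y.1 ∈ blk V b p.1 ∧ y.2 ∈ blk V b p.2)).card : ℝ) := by
      intro p hp
      have hlt : (p.1 : ℕ) < p.2 := (mem_filter.1 hp).2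
      rw [← Finset.sum_product', ← Finset.sum_filter, Finset.sum_const, nsmul_eq_mul, mul_one,
        Nat.cast_inj]
      congr 1
      ext y
      simp only [hG, mem_filter, mem_product]
      constructor
      · rintro ⟨⟨h1, h2⟩, h3⟩
        exact ⟨⟨⟨blk_sub _ _ _ h1, blk_sub _ _ _ h2⟩, blk_lt V hlt h1 h2, h3⟩, h1, h2⟩
      · rintro ⟨⟨_, _, h3⟩, h1, h2⟩
        exact ⟨⟨h1, h2⟩, h3⟩
    rw [Finset.sum_congr rfl e1, ← Nat.cast_sum, Nat.cast_le, ← Finset.card_biUnion]
    · apply card_le_card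
      intro y hy
      obtain ⟨p, _, h1⟩ := mem_biUnion.1 hy
      exact (mem_filter.1 h1).1
    · intro p hp p' hp' hne
      rw [Function.onFun, Finset.disjoint_left]
      intro y h1 h2
      apply hne
      obtain ⟨_, h3, h4⟩ := mem_filter.1 h1
      obtain ⟨_, h5, h6⟩ := mem_filter.1 h2
      have key : ∀ (i j : Fin m) (z : ℕ), z ∈ blk V b i → z ∈ blk V b j → i = j := by
        intro i j z hi hj
        rcases lt_trichotomy i j with h | h | h
        · exact absurd (blk_lt V h hi hj) (lt_irrefl _)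
        · exact h
        · exact absurd (blk_lt V h hj hi) (lt_irrefl _)
      exact Prod.ext (key _ _ _ h3 h5) (key _ _ _ h4 h6)
  have hb0 : (0 : ℝ) < b := by exact_mod_cast lt_of_lt_of_le (by omega) hbN
  have h2 : ((m : ℝ) ^ 2 / ((r : ℝ) - 1) - m) / 2 - 1 ≤ (G.card : ℝ) / (b * b) := by
    refine hmain.trans ?_
    have e2 : ∀ p ∈ prs m, ((∑ u ∈ blk V b p.1, ∑ v ∈ blk V b p.2,
      (if Rel u v then (1 : ℝ) else 0)) /
        (((blk V b p.1).card : ℝ) * ((blk V b p.2).card : ℝ))) =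
      (∑ u ∈ blk V b p.1, ∑ v ∈ blk V b p.2, (if Rel u v then (1 : ℝ) else 0)) / (b * b) := by
      intro p _
      rw [hbc, hbc]
    rw [Finset.sum_congr rfl e2, ← Finset.sum_div]
    exact div_le_div_of_nonneg_right hsum (by positivity)
  rw [le_div_iff₀ (by positivity)] at h2
  -- arithmetic
  have hr1 : (1 : ℝ) ≤ (r : ℝ) - 1 := by
    have : (2 : ℝ) ≤ r := by exact_mod_cast hr
    linarith
  set x : ℝ := 1 / ((r : ℝ) - 1) with hx
  have hx0 : 0 < x := by positivity
  have hx1 : x ≤ 1 := by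
    rw [hx, div_le_one (by linarith)]
    exact hr1
  have hmx : (m : ℝ) ^ 2 / ((r : ℝ) - 1) = m ^ 2 * x := by rw [hx]; ring
  rw [hmx] at h2
  have hG0 : (0 : ℝ) ≤ G.card := Nat.cast_nonneg _
  have hc0 : (0 : ℝ) ≤ (V.card : ℝ) ^ 2 := by positivity
  rcases le_or_gt x ε with hxe | hxe
  · have : (x - ε) * (V.card : ℝ) ^ 2 / 2 ≤ 0 := by
      have := mul_nonpos_of_nonpos_of_nonneg (by linarith : x - ε ≤ 0) hc0
      linarith
    linarith
  have hε1 : ε < 1 := hxe.trans_le hx1
  have hm1 : 4 < m * ε := by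
    have h13 : 4 / ε * ε = 4 := by field_simp
    nlinarith
  have hbm : (V.card : ℝ) - m ≤ m * b := by
    have h5 : V.card < m * (b + 1) := by
      rw [hb]
      exact Nat.lt_mul_div_succ _ hm0
    have h6 : (V.card : ℝ) < m * (b + 1) := by exact_mod_cast h5
    linarith
  have hVm : 8 * (m : ℝ) < V.card * ε := by
    rw [div_lt_iff₀ hε] at hV2
    exact hV2
  have hcV : (0 : ℝ) < V.card := by nlinarith
  have h7 : (V.card : ℝ) * (1 - ε / 8) ≤ m * b := by nlinarith
  have h8 : (V.card : ℝ) ^ 2 * (1 - ε / 4) ≤ (m * b) ^ 2 := by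
    have h9 : (0 : ℝ) ≤ V.card * (1 - ε / 8) := by
      apply mul_nonneg hcV.le
      linarith
    have h10 := pow_le_pow_left₀ h9 h7 2
    refine le_trans ?_ h10
    rw [mul_pow]
    apply mul_le_mul_of_nonneg_left _ hc0
    nlinarith
  have h9 : (x - ε / 2) * (m * b) ^ 2 / 2 ≤ G.card := by
    refine le_trans ?_ h2
    have h10 : (x - ε / 2) * (m : ℝ) ^ 2 / 2 ≤ (m ^ 2 * x - m) / 2 - 1 := by nlinarith
    have h11 := mul_le_mul_of_nonneg_right h10 (by positivity : (0 : ℝ) ≤ b * b)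
    refine le_trans (le_of_eq ?_) h11
    ring
  have h10 : (x - ε) * (V.card : ℝ) ^ 2 ≤ (x - ε / 2) * (m * b) ^ 2 := by
    have h11 : (x - ε / 2) * ((V.card : ℝ) ^ 2 * (1 - ε / 4)) ≤ (x - ε / 2) * (m * b) ^ 2 :=
      mul_le_mul_of_nonneg_left h8 (by linarith)
    refine le_trans ?_ h11
    have h12 : (x - ε) ≤ (x - ε / 2) * (1 - ε / 4) := by nlinarith
    calc (x - ε) * (V.card : ℝ) ^ 2 ≤ ((x - ε / 2) * (1 - ε / 4)) * (V.card : ℝ) ^ 2 :=
          mul_le_mul_of_nonneg_right h12 hc0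
      _ = _ := by ring
  linarith

end Pool.Agent.H74
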