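import Mathlib
import Pool.Graph.R_pool_sql_team_seeded_3dad9d7b.NH16.QL.All

/-! Five classes of multipliers `r ≤ (log N) ^ C`: the forms `r n + 1` with `n` in the window `[N, 2 N)`. -/

set_option autoImplicit false

namespace Pool.Agent.H74

open Finset Filter Topology
open Pool.Agent.H378R2 Pool.Agent.H387R2 Pool.Agent.H387R2.MB Pool.Agent.H362R2.QT
open Pool.Agent.NH16.QL

/-- the number of `n ∈ [N, 2 N)` such that `r n + 1` and `s n + 1` are primes -/
def cnt2 (r s N : ℕ) : ℕ := ((Ico N (2 * N)).filter (fun n => (r * n + 1).Prime ∧ (s * n + 1).Prime)).card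

/-- a lower bound for the main quantity -/
theorem UM_ge (J : ℕ) : ∀ᶠ N : ℕ in atTop,
    (N : ℝ) / (50 * 2 ^ J * Real.log N ^ (3 + J)) ≤
      UM J (((4 * N : ℕ) : ℝ) / 4) ⌊Real.log (Real.log ((4 * N : ℕ) : ℝ))⌋₊ := by
  have t4 : Tendsto (fun N : ℕ => 4 * N) atTop atTop :=
    tendsto_id.const_mul_atTop' (by norm_num : 0 < 4)
  have tN : Tendsto (fun N : ℕ => (N : ℝ)) atTop atTop := tendsto_natCast_atTop_atTop
  have tL : Tendsto (fun N : ℕ => Real.log (N : ℝ)) atTop atTop := Real.tendsto_log_atTop.comp tN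
  filter_upwards [t4.eventually (ec_eventually 0 1 1 (by norm_num : (0 : ℝ) < 1)),
    tN.eventually (wgt_holds.qge J), (LL_tendsto.comp tN).eventually_ge_atTop 1,
    tL.eventually_ge_atTop 1] with N h1 h2 h3 h4
  have e : (((4 * N : ℕ) : ℝ)) / 4 = (N : ℝ) := by push_cast; ring
  obtain ⟨hCS, -, -, hB⟩ := h1 ∅ (by simp) (by simp)
  rw [e] at hCS ⊢
  have h5 := h2 _ _ hCS.pos hCS.le hCS.gs.pr
  have h6 := LOW.QM_le_UM wgt_holds (J := J) (X := (N : ℝ)) (lt_of_lt_of_le one_pos h3) hB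
  have h7 := h5.trans h6
  have h2J : (0 : ℝ) < 2 ^ J := by positivity
  have hl : (0 : ℝ) < Real.log N ^ (3 + J) := by positivity
  rw [div_le_iff₀ (by positivity)] at h7 ⊢
  calc (N : ℝ) ≤ _ := h7
    _ = _ := by ring

open Classical in
/-- **five classes of multipliers** -/
theorem five : ∃ K J : ℕ, 1 ≤ K ∧ ∀ C : ℝ, ∀ᶠ N : ℕ in atTop, ∀ R : Fin 5 → Fin K → ℕ,
    Function.Injective (fun z : Fin 5 × Fin K => R z.1 z.2) → (∀ g i, 1 ≤ R g i) →
    (∀ g i, (R g i : ℝ) ≤ Real.log N ^ C) →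
    ∃ g g' i i', g < g' ∧ (N : ℝ) / Real.log N ^ J ≤ (cnt2 (R g i) (R g' i') N : ℝ) := by
  obtain ⟨K', hK', δ, hδ, hδ1, c0, hc0, hlow⟩ := low_holds 5 (by norm_num)
  obtain ⟨J0, hJ0⟩ : ∃ J0, J0 = 4 * 5 * K' := ⟨_, rfl⟩
  refine ⟨4 * K', J0 + 4, by omega, fun C => ?_⟩
  have t4 : Tendsto (fun N : ℕ => 4 * N) atTop atTop :=
    tendsto_id.const_mul_atTop' (by norm_num : 0 < 4)
  have tN : Tendsto (fun N : ℕ => (N : ℝ)) atTop atTop := tendsto_natCast_atTop_atTop
  have tL : Tendsto (fun N : ℕ => Real.log (N : ℝ)) atTop atTop := Real.tendsto_log_atTop.comp tN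
  obtain ⟨B, hB⟩ : ∃ B : ℝ, B = (25 * (4 * K') ^ 2) * (50 * 2 ^ J0) / c0 := ⟨_, rfl⟩
  filter_upwards [t4.eventually (hlow |C|), UM_ge J0, tL.eventually_gt_atTop B,
    tL.eventually_ge_atTop 1, eventually_ge_atTop 1] with N h1 h2 h3 h4 hN1
  intro R hinj hR1 hRC
  have e : (((4 * N : ℕ) : ℝ)) / 4 = (N : ℝ) := by push_cast; ring
  have hN0 : (0 : ℝ) < N := by exact_mod_cast hN1
  have hK0 : (0 : ℝ) < K' := by exact_mod_cast (by omega : 0 < K')
  set y := ⌊Real.log (Real.log ((4 * N : ℕ) : ℝ))⌋₊ with hy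
  -- the small classes
  have hdiv : ∀ g : Fin (4 * 5), (g : ℕ) / 4 < 5 := fun g => by have := g.2; omega
  have hix : ∀ (g : Fin (4 * 5)) (j : Fin K'), ((g : ℕ) % 4) * K' + j < 4 * K' := fun g j => by
    have h1 : (g : ℕ) % 4 ≤ 3 := by omega
    have h2 := Nat.mul_le_mul_right K' h1
    have := j.2
    omega
  set R' : Fin (4 * 5) × Fin K' → ℕ := fun x => R ⟨(x.1 : ℕ) / 4, hdiv x.1⟩
    ⟨((x.1 : ℕ) % 4) * K' + x.2, hix x.1 x.2⟩ with hR'
  have hinj' : Function.Injective R' := by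
    rintro ⟨g, j⟩ ⟨g', j'⟩ h
    have h5 := @hinj (⟨(g : ℕ) / 4, hdiv g⟩, ⟨((g : ℕ) % 4) * K' + j, hix g j⟩)
      (⟨(g' : ℕ) / 4, hdiv g'⟩, ⟨((g' : ℕ) % 4) * K' + j', hix g' j'⟩) h
    simp only [Prod.mk.injEq, Fin.mk.injEq] at h5
    obtain ⟨h6, h7⟩ := h5
    have hj := j.2
    have hj' := j'.2
    have h8 : (g : ℕ) % 4 = (g' : ℕ) % 4 ∧ (j : ℕ) = j' := by
      have a1 : (((g : ℕ) % 4) * K' + j) / K' = (g : ℕ) % 4 := by
        rw [mul_comm, Nat.mul_add_div (by omega), Nat.div_eq_of_lt hj, add_zero]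
      have a2 : (((g' : ℕ) % 4) * K' + j') / K' = (g' : ℕ) % 4 := by
        rw [mul_comm, Nat.mul_add_div (by omega), Nat.div_eq_of_lt hj', add_zero]
      have a3 : (g : ℕ) % 4 = (g' : ℕ) % 4 := by rw [← a1, ← a2, h7]
      refine ⟨a3, ?_⟩
      rw [a3] at h7
      omega
    exact Prod.ext (Fin.ext (by simp only; omega)) (Fin.ext h8.2)
  have hbd : ∀ x, R' x ≤ ⌊Real.log ((4 * N : ℕ) : ℝ) ^ |C|⌋₊ := by
    intro x
    apply Nat.le_floor
    refine (hRC _ _).trans ?_
    refine (Real.rpow_le_rpow_of_exponent_le h4 (le_abs_self C)).trans ?_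
    apply Real.rpow_le_rpow (by linarith) _ (abs_nonneg C)
    apply Real.log_le_log hN0
    push_cast
    linarith
  have hlow2 := h1 0 R' hinj' (fun x => hR1 _ _) hbd (fun x => by simp)
  rw [e] at hlow2 h2
  rw [← hJ0] at hlow2
  -- the upper bound
  set ind : ℕ → Prop := fun n =>
    5 ≤ ((univ : Finset (Fin (4 * 5))).filter (fun g => ∃ j, (R' (g, j) * n + 1).Prime)).card with hind
  have hup : ∑ n ∈ Icc 1 ⌊3 * (N : ℝ)⌋₊, nw (N : ℝ) (Uni.WW y) 0 n *
      (if (5 ≤ ((univ : Finset (Fin (4 * 5))).filter (fun g => ∃ j, (R' (g, j) * n + 1).Prime)).card) ∧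
        (∀ x, Rg δ (N : ℝ) (R' x * n + 1)) then (1 : ℝ) else 0) ≤
      (((Ico N (2 * N)).filter ind).card : ℝ) := by
    have h5 : ∀ n ∈ Icc 1 ⌊3 * (N : ℝ)⌋₊, nw (N : ℝ) (Uni.WW y) 0 n *
      (if (5 ≤ ((univ : Finset (Fin (4 * 5))).filter (fun g => ∃ j, (R' (g, j) * n + 1).Prime)).card) ∧
        (∀ x, Rg δ (N : ℝ) (R' x * n + 1)) then (1 : ℝ) else 0) ≤
        (if n ∈ (Ico N (2 * N)).filter ind then (1 : ℝ) else 0) := by
      intro n hn
      by_cases hmem : n ∈ (Ico N (2 * N)).filter ind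
      · rw [if_pos hmem]
        have h6 : nw (N : ℝ) (Uni.WW y) 0 n ≤ 1 := by
          unfold nw
          split_ifs
          · exact (wgt_holds.half _).trans (by norm_num)
          · norm_num
        have h7 : 0 ≤ nw (N : ℝ) (Uni.WW y) 0 n := by
          unfold nw
          split_ifs
          · exact wgt_holds.nn _
          · exact le_rfl
        split_ifs
        · linarith
        · linarith
      · rw [if_neg hmem]
        by_cases h6 : nw (N : ℝ) (Uni.WW y) 0 n = 0
        · rw [h6, zero_mul]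
        · have h7 : Ph (n / (N : ℝ)) ≠ 0 := by
            intro h8
            apply h6
            unfold nw
            rw [h8, ite_self]
          have h8 : N < n := by
            by_contra h9
            apply h7
            apply wgt_holds.low _ (by positivity)
            rw [div_le_one hN0]
            exact_mod_cast not_lt.1 h9
          have h9 : n < 2 * N := by
            by_contra h10
            apply h7
            apply wgt_holds.high
            have h11 : Real.exp (1 / 2) ≤ 2 := by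
              have h12 : Real.exp (1 / 2) * Real.exp (1 / 2) ≤ 4 := by
                rw [← Real.exp_add]
                have : (1 / 2 + 1 / 2 : ℝ) = 1 := by norm_num
                rw [this]
                have := Real.exp_one_lt_d9
                linarith
              nlinarith [Real.exp_pos (1 / 2)]
            refine h11.trans ?_
            rw [le_div_iff₀ hN0]
            exact_mod_cast not_lt.1 h10
          rw [if_neg, mul_zero]
          rintro ⟨h10, -⟩
          exact hmem (mem_filter.2 ⟨mem_Ico.2 ⟨h8.le, h9⟩, h10⟩)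
    refine (sum_le_sum h5).trans ?_
    rw [sum_ite_mem, sum_const, nsmul_eq_mul, mul_one, Nat.cast_le]
    exact card_le_card inter_subset_right
  by_contra hcon
  push Not at hcon
  -- pairs
  have hcov : (Ico N (2 * N)).filter ind ⊆
      ((univ : Finset ((Fin 5 × Fin (4 * K')) × (Fin 5 × Fin (4 * K')))).filter
        (fun z => z.1.1 < z.2.1)).biUnion
      (fun z => (Ico N (2 * N)).filter
        (fun n => (R z.1.1 z.1.2 * n + 1).Prime ∧ (R z.2.1 z.2.2 * n + 1).Prime)) := by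
    intro n hn
    obtain ⟨hn1, hn2⟩ := mem_filter.1 hn
    have h5 : ∃ g ∈ (univ : Finset (Fin (4 * 5))).filter (fun g => ∃ j, (R' (g, j) * n + 1).Prime),
        ∃ g' ∈ (univ : Finset (Fin (4 * 5))).filter (fun g => ∃ j, (R' (g, j) * n + 1).Prime),
        (g : ℕ) / 4 < (g' : ℕ) / 4 := by
      by_contra hno
      push Not at hno
      have h6 : ((univ : Finset (Fin (4 * 5))).filter
          (fun g => ∃ j, (R' (g, j) * n + 1).Prime)).card ≤ 4 := by
        obtain ⟨g0, hg0⟩ : ((univ : Finset (Fin (4 * 5))).filter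
          (fun g => ∃ j, (R' (g, j) * n + 1).Prime)).Nonempty := by
            rw [← card_pos]
            exact lt_of_lt_of_le (by norm_num) hn2
        refine (card_le_card_of_injOn (t := range 4) (fun g : Fin (4 * 5) => (g : ℕ) % 4) ?_ ?_).trans
          (by rw [card_range])
        · intro g _
          simp only [coe_range, Set.mem_Iio]
          omega
        · intro g hg g' hg' hgg
          have a1 := hno g hg g0 hg0
          have a2 := hno g0 hg0 g hg
          have a3 := hno g' hg' g0 hg0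
          have a4 := hno g0 hg0 g' hg'
          simp only at hgg
          apply Fin.ext
          omega
      have : 5 ≤ 4 := le_trans hn2 h6
      omega
    obtain ⟨g, hg, g', hg', hlt⟩ := h5
    obtain ⟨j, hj⟩ := (mem_filter.1 hg).2
    obtain ⟨j', hj'⟩ := (mem_filter.1 hg').2
    refine mem_biUnion.2 ⟨((⟨(g : ℕ) / 4, hdiv g⟩, ⟨((g : ℕ) % 4) * K' + j, hix g j⟩),
      (⟨(g' : ℕ) / 4, hdiv g'⟩, ⟨((g' : ℕ) % 4) * K' + j', hix g' j'⟩)), ?_, ?_⟩
    · rw [mem_filter]
      exact ⟨mem_univ _, hlt⟩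
    · rw [mem_filter]
      exact ⟨hn1, hj, hj'⟩
  have hle : (((Ico N (2 * N)).filter ind).card : ℝ) ≤
      (25 * (4 * K') ^ 2) * ((N : ℝ) / Real.log N ^ (J0 + 4)) := by
    have h5 : (((Ico N (2 * N)).filter ind).card : ℝ) ≤
        ∑ z ∈ ((univ : Finset ((Fin 5 × Fin (4 * K')) × (Fin 5 × Fin (4 * K')))).filter
          (fun z => z.1.1 < z.2.1)), (cnt2 (R z.1.1 z.1.2) (R z.2.1 z.2.2) N : ℝ) := by
      have := (card_le_card hcov).trans card_biUnion_le
      unfold cnt2
      exact_mod_cast this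
    refine h5.trans ?_
    refine (sum_le_sum (g := fun _ => (N : ℝ) / Real.log N ^ (J0 + 4)) fun z hz => ?_).trans ?_
    · exact (hcon _ _ _ _ (mem_filter.1 hz).2).le
    · rw [sum_const, nsmul_eq_mul]
      apply mul_le_mul_of_nonneg_right _ (by positivity)
      have h6 := card_filter_le (univ : Finset ((Fin 5 × Fin (4 * K')) × (Fin 5 × Fin (4 * K'))))
        (fun z => z.1.1 < z.2.1)
      rw [card_univ, Fintype.card_prod, Fintype.card_prod, Fintype.card_fin, Fintype.card_fin] at h6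
      have h7 : ((((univ : Finset ((Fin 5 × Fin (4 * K')) × (Fin 5 × Fin (4 * K')))).filter
          (fun z => z.1.1 < z.2.1)).card : ℕ) : ℝ) ≤ ((5 * (4 * K') * (5 * (4 * K')) : ℕ) : ℝ) := by
        exact_mod_cast h6
      refine h7.trans (le_of_eq ?_)
      push_cast
      ring
  have hfin := (mul_le_mul_of_nonneg_left h2 hc0.le).trans (hlow2.trans (hup.trans hle))
  have hl0 : 0 < Real.log N := by linarith
  have h6 : c0 * ((N : ℝ) / (50 * 2 ^ J0 * Real.log N ^ (3 + J0))) =
      (c0 / (50 * 2 ^ J0) * Real.log N) * ((N : ℝ) / Real.log N ^ (J0 + 4)) := by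
    rw [show J0 + 4 = (3 + J0) + 1 by ring, pow_succ]
    field_simp
  rw [h6] at hfin
  have h7 : 0 < (N : ℝ) / Real.log N ^ (J0 + 4) := by positivity
  have h8 := le_of_mul_le_mul_right hfin h7
  rw [hB] at h3
  have h9 : (25 * (4 * K') ^ 2 : ℝ) < c0 / (50 * 2 ^ J0) * Real.log N := by
    rw [div_lt_iff₀ hc0] at h3
    rw [div_mul_eq_mul_div, lt_div_iff₀ (by positivity)]
    linarith
  linarith

end Pool.Agent.H74
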