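import Mathlib
import Pool.Graph.R_seed8.TH899.UG.TD6
import Pool.Graph.R_pool_sql_team_seeded_efc1946e.K1H50.NP.Win

/-! At least one third of the initial segments, for arbitrary sets of exponents which meet the differences of
four classes (after `Pool.Agent.TH899.UG.TD.thirdq` and `Pool.Agent.Helper22K9.thirdU`). -/

set_option autoImplicit false

namespace Pool.Agent.H74

open Finset Filter
open Pool.Agent.TH899.UG.TD (quad QQ PP emb pig)
open Pool.Agent.TH899.UG (box_pow)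

/-- `G` contains a difference of elements of two of any four classes with fixed residues -/
def Hits4 (K : ℕ) (G : Set ℕ) : Prop :=
  ∀ c : ℕ, (c = 1 ∨ c = 2) → ∀ (A : Fin 4 → Fin K → ℕ) (r : Fin 4 → ℕ),
    Function.Injective (fun z : Fin 4 × Fin K => A z.1 z.2) →
    (∀ g i, A g i % (4 * K).factorial = r g) → (∀ g i, A g i % 3 = 0 ∨ A g i % 3 = c) →
    ∃ g g' i i', g ≠ g' ∧ A g i < A g' i' ∧ A g' i' - A g i ∈ G

open Classical in
theorem thirdG (K : ℕ) (ε : ℝ) (hε : 0 < ε) : ∃ H₀ : ℕ, ∀ G : Set ℕ, Hits4 K G → ∀ H : ℕ, H₀ ≤ H →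
    (1 / 3 - ε) * (H : ℝ) ≤ (((Icc 1 H).filter (fun k : ℕ => k ∈ G)).card : ℝ) := by
  obtain ⟨W, hW⟩ : ∃ W, W = (4 * K).factorial := ⟨_, rfl⟩
  have hW0 : 0 < W := by rw [hW]; exact Nat.factorial_pos _
  obtain ⟨C₁, E, hC₁, HB⟩ := box_pow (W * K) 4
  obtain ⟨e, he⟩ : ∃ e, e = min ε 1 := ⟨_, rfl⟩
  have he0 : 0 < e := by rw [he]; positivity
  have he1 : e ≤ 1 := by rw [he]; exact min_le_right _ _
  have heε : e ≤ ε := by rw [he]; exact min_le_left _ _
  obtain ⟨ε₂, hε₂⟩ : ∃ ε₂ : ℝ, ε₂ = (e / 16) ^ 3 / 625 := ⟨_, rfl⟩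
  have hε₂0 : 0 < ε₂ := by rw [hε₂]; positivity
  have hε₂1 : ε₂ ≤ 1 := by
    have h1 : (e / 16) ^ 3 ≤ 1 := pow_le_one₀ (by positivity) (by linarith)
    rw [hε₂]; linarith
  obtain ⟨R₁, hR₁⟩ := exists_nat_ge (C₁ / ε₂ ^ E)
  obtain ⟨R₂, hR₂⟩ := exists_nat_ge (16 / e)
  refine ⟨R₁ + R₂ + 10, fun G HC H hCH => ?_⟩
  by_contra hcon
  push Not at hcon
  obtain ⟨B, hBdef⟩ : ∃ B, B = (Icc 1 H).filter (fun k : ℕ => ¬ k ∈ G) := ⟨_, rfl⟩
  have hsum : ((Icc 1 H).filter (fun k : ℕ => k ∈ G)).card + B.card = H := by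
    rw [hBdef, card_filter_add_card_filter_not, Nat.card_Icc, Nat.add_sub_cancel]
  have hBI : B ⊆ Icc 1 H := by rw [hBdef]; exact filter_subset _ _
  have hsumr : ((((Icc 1 H).filter (fun k : ℕ => k ∈ G)).card : ℕ) : ℝ) +
      (B.card : ℝ) = H := by exact_mod_cast hsum
  have hH0 : (0 : ℝ) ≤ H := Nat.cast_nonneg _
  have hBr : (2 / 3 + e) * (H : ℝ) ≤ B.card := by nlinarith
  have hR1H : C₁ / ε₂ ^ E ≤ (H : ℝ) := hR₁.trans (by exact_mod_cast (by omega : R₁ ≤ H))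
  have hR2H : 16 / e ≤ (H : ℝ) := hR₂.trans (by exact_mod_cast (by omega : R₂ ≤ H))
  have heH : 16 ≤ e * H := by
    rw [div_le_iff₀ he0] at hR2H
    linarith
  obtain ⟨R, hR⟩ : ∃ R, R = ⌊e * H / 8⌋₊ := ⟨_, rfl⟩
  have hRu : (R : ℝ) ≤ e * H / 8 := by rw [hR]; exact Nat.floor_le (by positivity)
  have hRl : e * H / 16 ≤ (R : ℝ) := by
    have h1 : e * H / 8 < (R : ℝ) + 1 := by rw [hR]; exact Nat.lt_floor_add_one _
    linarith
  have hR1 : 1 ≤ R := by
    have h1 : (1 : ℝ) ≤ R := by linarith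
    exact_mod_cast h1
  obtain ⟨c, hc, hq'⟩ := quad H R R hR1 B hBI (by
    have h1 : (2 * H + 9 * R + 3 * R + 20 : ℝ) ≤ 3 * B.card := by nlinarith
    exact_mod_cast h1)
  have hcount : ε₂ * ∏ i : Fin 4, (((fun _ : Fin 4 => range (5 * H)) i).card : ℝ) ≤
      (((Fintype.piFinset (fun _ : Fin 4 => range (5 * H))).filter (fun f => PP B c f)).card : ℝ) := by
    have h1 : ∏ i : Fin 4, (((fun _ : Fin 4 => range (5 * H)) i).card : ℝ) = (5 * H) ^ 4 := by
      simp only [card_range, prod_const, card_univ, Fintype.card_fin]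
      push_cast
      ring
    rw [h1]
    have h2 : (H : ℝ) * (QQ H B c).card ≤
      (((Fintype.piFinset (fun _ : Fin 4 => range (5 * H))).filter (fun f => PP B c f)).card : ℝ) := by
      exact_mod_cast emb H c B
    refine le_trans ?_ h2
    have h3 : (R : ℝ) * (R * R) ≤ (QQ H B c).card := by exact_mod_cast hq'
    have h4 : (e * H / 16) ^ 3 ≤ (R : ℝ) ^ 3 := by gcongr
    have h5 : (R : ℝ) ^ 3 = R * (R * R) := by ring
    have h6 : ε₂ * (5 * (H : ℝ)) ^ 4 = H * (e * H / 16) ^ 3 := by rw [hε₂]; ring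
    rw [h6]
    exact mul_le_mul_of_nonneg_left (by linarith) hH0
  obtain ⟨Af, hA1, hA2⟩ := HB ε₂ hε₂0 hε₂1 ℕ (fun _ : Fin 4 => range (5 * H)) (fun i => by
    simp only [card_range]
    push_cast
    linarith) _ (filter_subset _ _) hcount
  have hlt : ∀ g g' : Fin 4, g < g' → ∀ i j, Af g i < Af g' j ∧ Af g' j - Af g i ∈ B := by
    intro g g' hgg i j
    have h1 := (mem_filter.1 (hA2 (Function.update (fun _ => i) g' j))).2.1 g g' hgg
    simp only [Function.update_self, Function.update_of_ne hgg.ne] at h1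
    exact h1
  have hmod : ∀ g i, Af g i % 3 = 0 ∨ Af g i % 3 = c := fun g i =>
    (mem_filter.1 (hA2 (fun _ => i))).2.2 g
  choose em hem r hr using fun g => pig W K hW0 (Af g)
  obtain ⟨A, hA⟩ : ∃ A : Fin 4 → Fin K → ℕ, A = fun g i => Af g (em g i) := ⟨_, rfl⟩
  have hAv : ∀ g i, A g i = Af g (em g i) := fun g i => by rw [hA]
  have hlt' : ∀ g g' : Fin 4, g < g' → ∀ i j, A g i < A g' j ∧ A g' j - A g i ∈ B := by
    intro g g' hgg i j
    rw [hAv, hAv]
    exact hlt g g' hgg _ _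
  have hinjA : Function.Injective (fun z : Fin 4 × Fin K => A z.1 z.2) := by
    rintro ⟨g, i⟩ ⟨g', j⟩ h
    have h' : A g i = A g' j := h
    rcases lt_trichotomy g g' with hg | hg | hg
    · have := (hlt' g g' hg i j).1
      omega
    · subst hg
      rw [hAv, hAv] at h'
      rw [hem g (hA1 g h')]
    · have := (hlt' g' g hg j i).1
      omega
  obtain ⟨g, g', i, j, hne, hltt, hgap⟩ := HC c hc A r hinjA
    (fun g i => by rw [hAv, ← hW]; exact hr g i) (fun g i => by rw [hAv]; exact hmod _ _)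
  rcases lt_trichotomy g g' with hg | hg | hg
  · have h1 := (hlt' g g' hg i j).2
    rw [hBdef, mem_filter] at h1
    exact h1.2 hgap
  · exact hne hg
  · have := (hlt' g' g hg j i).1
    omega

open Pool.Agent.Y827.RO Pool.Agent.Y863.AU Pool.Agent.Y863.AA Pool.Agent.W25.IT
open Pool.Agent.H947R3.GM Pool.Agent.K1H50.NP

/-- a residue class outside a small set of residue classes -/
theorem exres (p : ℕ) (S : Finset ℕ) (hS : S.card < p) : ∃ r : ℕ, ∀ s ∈ S, ¬ s ≡ r [MOD p] := by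
  classical
  obtain ⟨r, hr1, hr2⟩ : ∃ r ∈ range p, r ∉ S.image (· % p) := by
    by_contra hcon
    push Not at hcon
    have h1 : (range p).card ≤ (S.image (· % p)).card := card_le_card fun x hx => hcon x hx
    rw [card_range] at h1
    have h2 := card_image_le (s := S) (f := (· % p))
    omega
  refine ⟨r, fun s hs h => hr2 (mem_image.2 ⟨s, hs, ?_⟩)⟩
  have h3 : s % p = r % p := h
  rw [h3, Nat.mod_eq_of_lt (mem_range.1 hr1)]

/-- local conditions for the iterates of a map with exponents in four residue classes -/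
theorem loc4 {K : ℕ} {f : Af} (hA : f.Adm) (m c : ℕ) (hc : c = 1 ∨ c = 2)
    (A : Fin 4 → Fin K → ℕ) (r : Fin 4 → ℕ) (hr : ∀ g i, A g i % (4 * K).factorial = r g)
    (h3 : ∀ g i, A g i % 3 = 0 ∨ A g i % 3 = c) {p : ℕ} (hp : p.Prime) :
    ∃ y : ℤ, ∀ γ i, ¬ (p : ℤ) ∣ (f ^ (m * A γ i)).d * y + (f ^ (m * A γ i)).a := by
  have h1 := iter_admissible (ι := Fin 4 × Fin K) hA.1 hA.2 (fun z => m * A z.1 z.2) hp (by
    intro hp3 hpd hpa
    by_cases hp3' : p = 3
    · subst hp3'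
      by_cases hm : 3 ∣ m
      · refine iter_miss (fun z : Fin 4 × Fin K => m * A z.1 z.2) hp hpd hpa 1 (fun z hz => ?_)
        have h4 : m * A z.1 z.2 % 3 = 1 % 3 := hz
        rw [Nat.mod_eq_zero_of_dvd (hm.mul_right _)] at h4
        omega
      · refine iter_miss (fun z : Fin 4 × Fin K => m * A z.1 z.2) hp hpd hpa (m * (2 * c)) (fun z hz => ?_)
        have h4 : A z.1 z.2 ≡ 2 * c [MOD 3] :=
          Nat.ModEq.cancel_left_of_coprime (by
            rw [Nat.coprime_iff_gcd_eq_one.symm]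
            exact ((Nat.Prime.coprime_iff_not_dvd Nat.prime_three).2 hm)) hz
        have h5 : A z.1 z.2 % 3 = 2 * c % 3 := h4
        have h6 := h3 z.1 z.2
        omega
    have hp5 : 5 ≤ p := by
      have : p ≠ 4 := fun h => by subst h; exact absurd hp (by decide)
      omega
    by_cases hpn : p ≤ 4 * K
    · obtain ⟨s, hs⟩ := exres p ((univ : Finset (Fin 4)).image (fun g => m * r g)) (by
        refine card_image_le.trans_lt ?_
        rw [card_univ, Fintype.card_fin]; omega)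
      refine iter_miss (fun z : Fin 4 × Fin K => m * A z.1 z.2) hp hpd hpa s (fun z hz => ?_)
      refine hs (m * r z.1) (mem_image.2 ⟨z.1, mem_univ _, rfl⟩) ?_
      refine Nat.ModEq.trans ?_ hz
      refine Nat.ModEq.mul_left m ?_
      have h2 : p ∣ (4 * K).factorial := Nat.dvd_factorial hp.pos hpn
      rw [← hr z.1 z.2]
      exact (Nat.mod_modEq _ _).of_dvd h2
    · refine avoid (fun z : Fin 4 × Fin K => f.d ^ (m * A z.1 z.2))
        (fun z => itc f.a f.d (m * A z.1 z.2)) hp (fun z hz => ?_) (by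
          rw [Fintype.card_prod, Fintype.card_fin, Fintype.card_fin]; omega)
      have hpp := Nat.prime_iff_prime_int.1 hp
      have h2 := hpp.dvd_of_dvd_pow hz
      have h3 := dvd_sub h2 hpd
      rw [sub_sub_cancel] at h3
      exact hpp.not_isUnit (isUnit_of_dvd_one h3))
  obtain ⟨y, hy⟩ := h1
  refine ⟨y, fun γ i hi => hy (γ, i) ?_⟩
  rw [Af.pow_d, Af.pow_a] at hi
  exact hi

open Classical in
/-- the good exponents of every map meet the differences of four classes; absolute constants -/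
theorem hits : ∃ K : ℕ, 1 ≤ K ∧ ∀ f : Af, 1 ≤ f.d → f.Adm → f ≠ 1 → ∀ m : ℕ, 1 ≤ m →
    Hits4 K {j : ℕ | GdI (4 * K) f (m * j)} := by
  obtain ⟨K, hK, hclq⟩ := clq 4 1 (by norm_num) (by norm_num)
  refine ⟨K, hK, fun f hfd hfA hf1 m hm c hc A r hinj hr h3 => ?_⟩
  have hfa : f.a ≠ 0 := Af.a_ne hfA hf1 hfd
  -- a common number of iterates
  have hR : ∀ z : (Fin 4 × Fin K) × (Fin 4 × Fin K), ∃ R : ℕ,
      ¬ GdI (4 * K) f (m * (A z.2.1 z.2.2 - A z.1.1 z.1.2)) → m * (A z.2.1 z.2.2 - A z.1.1 z.1.2) ≤ R ∧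
      ¬ GdR (4 * K) R f (m * (A z.2.1 z.2.2 - A z.1.1 z.1.2)) := by
    intro z
    by_cases hz : GdI (4 * K) f (m * (A z.2.1 z.2.2 - A z.1.1 z.1.2))
    · exact ⟨0, fun h => absurd hz h⟩
    · have h1 : ¬ ∀ R, m * (A z.2.1 z.2.2 - A z.1.1 z.1.2) ≤ R →
          GdR (4 * K) R f (m * (A z.2.1 z.2.2 - A z.1.1 z.1.2)) := fun h => hz (gdI_of h)
      push Not at h1
      obtain ⟨R, hR1, hR2⟩ := h1
      exact ⟨R, fun _ => ⟨hR1, hR2⟩⟩
  choose Rf hRf using hR
  obtain ⟨R, hRdef⟩ : ∃ R : ℕ, R = ∑ z : (Fin 4 × Fin K) × (Fin 4 × Fin K),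
    (Rf z + m * (A z.2.1 z.2.2 - A z.1.1 z.1.2)) := ⟨_, rfl⟩
  have hRz : ∀ z : (Fin 4 × Fin K) × (Fin 4 × Fin K),
      Rf z + m * (A z.2.1 z.2.2 - A z.1.1 z.1.2) ≤ R := by
    intro z
    rw [hRdef]
    exact single_le_sum (f := fun z : (Fin 4 × Fin K) × (Fin 4 × Fin K) =>
      (Rf z + m * (A z.2.1 z.2.2 - A z.1.1 z.1.2))) (fun _ _ => Nat.zero_le _) (mem_univ z)
  obtain ⟨S, σ, hS, hcl⟩ := hclq R (fun γ i => f ^ (m * A γ i)) (fun γ i => by
      rw [Af.pow_d]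
      have h2 : 0 < f.d ^ (m * A γ i) := by
        have : 0 < f.d := by omega
        positivity
      omega) (by
      intro x y hxy
      apply hinj
      have h1 : f ^ (m * A x.1 x.2) = f ^ (m * A y.1 y.2) := hxy
      have h2 := congrArg Af.d h1
      have h3 := congrArg Af.a h1
      rw [Af.pow_d, Af.pow_d] at h2
      rw [Af.pow_a, Af.pow_a] at h3
      exact Nat.eq_of_mul_eq_mul_left hm (itc_inj hfd hfa h2 h3))
    (fun p hp => loc4 hfA m c hc A r hr h3 hp) {f} (fun h hh => by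
      rw [mem_singleton] at hh
      rw [hh]
      exact ⟨hfd, hfa⟩)
  have hkey : ∀ γ ∈ S, ∀ δ ∈ S, A γ (σ γ) < A δ (σ δ) →
      A δ (σ δ) - A γ (σ γ) ∈ {j : ℕ | GdI (4 * K) f (m * j)} := by
    intro γ hγ δ hδ hlt
    have hle : m * A γ (σ γ) ≤ m * A δ (σ δ) := Nat.mul_le_mul_left _ hlt.le
    have hsub : m * (A δ (σ δ) - A γ (σ γ)) = m * A δ (σ δ) - m * A γ (σ γ) := Nat.mul_sub _ _ _
    have h1 := hcl γ hγ δ hδ f (mem_singleton_self _) (m * (A δ (σ δ) - A γ (σ γ))) (by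
      have : 1 ≤ A δ (σ δ) - A γ (σ γ) := by omega
      exact Nat.mul_pos hm this) (by
      have := hRz ((γ, σ γ), (δ, σ δ))
      simp only at this
      omega) (by
      rw [← pow_add]
      congr 1
      omega)
    show GdI (4 * K) f (m * (A δ (σ δ) - A γ (σ γ)))
    by_contra hng
    obtain ⟨h2, h3⟩ := hRf ((γ, σ γ), (δ, σ δ)) hng
    have h4 := hRz ((γ, σ γ), (δ, σ δ))
    simp only at h2 h3 h4
    exact h3 (h1.mono h2 (by omega))
  obtain ⟨γ, hγ, δ, hδ, hne⟩ := Finset.one_lt_card.1 (show 1 < S.card by omega)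
  have hAne : A γ (σ γ) ≠ A δ (σ δ) := by
    intro h
    have := @hinj (γ, σ γ) (δ, σ δ) h
    exact hne (congrArg Prod.fst this)
  rcases lt_or_gt_of_ne hAne with h | h
  · exact ⟨γ, δ, σ γ, σ δ, hne, h, hkey γ hγ δ hδ h⟩
  · exact ⟨δ, γ, σ δ, σ γ, hne.symm, h, hkey δ hδ γ hγ h⟩

end Pool.Agent.H74
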